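import Mathlib
import Pool.Agent.Q87.NewtonShift

/-!
# `I + T` is topologically multiply recurrent for every unilateral weighted shift `T`

In fact `I + T, (I + T)², …, (I + T)^N` are disjoint mixing for every `N`.
-/

set_option autoImplicit false

open Filter Topology

namespace Pool.Agent.Results.MP_a8995d_an.MultiplyRecurrent

/-- The complex Hilbert space `ℓ²(ℕ)`. -/
abbrev Ell2 : Type := lp (fun _ : ℕ => ℂ) 2

/-- `T` is the unilateral weighted shift with weights `w`: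
`T (x₀, x₁, x₂, …) = (w₁ x₁, w₂ x₂, …)`. -/
def IsWeightedShift (w : ℕ → ℝ) (T : Ell2 →L[ℂ] Ell2) : Prop :=
  ∀ (x : Ell2) (n : ℕ), T x n = w (n + 1) * x (n + 1)

/-- `S` is topologically multiply recurrent: for every nonempty open `U` and every `N ≥ 1` there
is `k ≥ 1` such that some `x` satisfies `x, S^k x, S^(2k) x, …, S^(Nk) x ∈ U`. -/
def MultiplyRecurrent (S : Ell2 →L[ℂ] Ell2) : Prop :=
  ∀ U : Set Ell2, IsOpen U → U.Nonempty → ∀ N : ℕ, 1 ≤ N →
    ∃ k : ℕ, 1 ≤ k ∧ ∃ x : Ell2, ∀ j ≤ N, (S ^ (j * k)) x ∈ U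

/-- For every `N` the operators `S, S², …, S^N` are disjoint mixing: given nonempty open sets
`U 0, …, U N`, for all large `k` some `x ∈ U 0` satisfies `S^(ik) x ∈ U i` for `i = 1, …, N`. -/
def PowersDisjointMixing (S : Ell2 →L[ℂ] Ell2) : Prop :=
  ∀ (N : ℕ) (U : ℕ → Set Ell2), (∀ i ≤ N, IsOpen (U i)) → (∀ i ≤ N, (U i).Nonempty) →
    ∃ k₀ : ℕ, ∀ k ≥ k₀, ∃ x : Ell2, ∀ i ≤ N, (S ^ (i * k)) x ∈ U i

/-- For every unilateral weighted shift `T` with positive weights, `I + T` is topologically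
multiply recurrent, and its powers are disjoint mixing. -/
theorem result (w : ℕ → ℝ) (hw : ∀ n, 0 < w n) (T : Ell2 →L[ℂ] Ell2)
    (hT : IsWeightedShift w T) :
    MultiplyRecurrent (1 + T) ∧ PowersDisjointMixing (1 + T) := by
  have h : PowersDisjointMixing (1 + T) := fun N U hU hU2 =>
    eventually_atTop.1 (Q87.NewtonShift.disjoint_mixing (w := w) hw hT N U hU hU2)
  refine ⟨fun U hU hU2 N _ => ?_, h⟩
  obtain ⟨k₀, hk⟩ := h N (fun _ => U) (fun _ _ => hU) (fun _ _ => hU2)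
  exact ⟨max k₀ 1, le_max_right _ _, hk _ (le_max_left _ _)⟩

end Pool.Agent.Results.MP_a8995d_an.MultiplyRecurrent
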